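import Pool.Agent.Helper91_PP.Statements

/-!
# Module J : short connections from small separators
-/

namespace Helper39_PP

open H91PP H91PP.TriSphere SimpleGraph

variable {S : TriSphere}

/-- the vertices of a set of edges -/
def VE (Z : Set S.E) : Set S.V := {v | ∃ e ∈ Z, S.a e = v ∨ S.b e = v}

lemma joins_side (t : S.T) (i : Fin 3) : S.Joins (S.s t i) (S.c t i) (S.c t (i + 1)) := by
  rcases S.s_ends t i with h | h
  · exact Or.inl h
  · exact Or.inr h

lemma corner_adj (t : S.T) (i j : Fin 3) (hij : i ≠ j) :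
    (S.grE Set.univ).Adj (S.c t i) (S.c t j) := by
  have h : j = i + 1 ∨ i = j + 1 := by
    revert i j
    decide
  rcases h with h | h
  · subst h
    exact ⟨S.s t i, Set.mem_univ _, joins_side t i⟩
  · subst h
    exact ((show (S.grE Set.univ).Adj (S.c t j) (S.c t (j + 1)) from
      ⟨S.s t j, Set.mem_univ _, joins_side t j⟩)).symm

/-- an edge of a triangle is one of its sides -/
lemma edge_side (e : S.E) (t : S.T) (h : S.l e = t ∨ S.r e = t) : ∃ i, S.s t i = e := by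
  rcases h with h | h
  · subst h
    exact S.l_s e
  · subst h
    exact S.r_s e

lemma ends_corner (e : S.E) (t : S.T) (h : S.l e = t ∨ S.r e = t) :
    ∃ i, (S.a e = S.c t i ∧ S.b e = S.c t (i + 1)) ∨ (S.a e = S.c t (i + 1) ∧ S.b e = S.c t i) := by
  obtain ⟨i, hi⟩ := edge_side e t h
  refine ⟨i, ?_⟩
  have := S.s_ends t i
  rw [hi] at this
  exact this

lemma a_corner (e : S.E) (t : S.T) (h : S.l e = t ∨ S.r e = t) : ∃ i, S.c t i = S.a e := by
  obtain ⟨i, hi | hi⟩ := ends_corner e t h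
  · exact ⟨i, hi.1.symm⟩
  · exact ⟨i + 1, hi.1.symm⟩

lemma b_corner (e : S.E) (t : S.T) (h : S.l e = t ∨ S.r e = t) : ∃ i, S.c t i = S.b e := by
  obtain ⟨i, hi | hi⟩ := ends_corner e t h
  · exact ⟨i + 1, hi.2.symm⟩
  · exact ⟨i, hi.2.symm⟩

lemma end_corner (e : S.E) (v : S.V) (hv : S.a e = v ∨ S.b e = v) (t : S.T)
    (h : S.l e = t ∨ S.r e = t) : ∃ i, S.c t i = v := by
  rcases hv with hv | hv
  · subst hv
    exact a_corner e t h
  · subst hv
    exact b_corner e t h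

lemma joins_end_left {e : S.E} {x y : S.V} (h : S.Joins e x y) : S.a e = x ∨ S.b e = x := by
  rcases h with h | h
  · exact Or.inl h.1
  · exact Or.inr h.2

lemma joins_end_right {e : S.E} {x y : S.V} (h : S.Joins e x y) : S.a e = y ∨ S.b e = y := by
  rcases h with h | h
  · exact Or.inr h.2
  · exact Or.inl h.1

lemma mem_VR_of_ER {R : Set S.T} {e : S.E} (he : e ∈ S.ER R) {v : S.V}
    (hv : S.a e = v ∨ S.b e = v) : v ∈ S.VR R := by
  rcases he with he | he
  · obtain ⟨i, hi⟩ := end_corner e v hv (S.l e) (Or.inl rfl)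
    exact ⟨S.l e, he, i, hi⟩
  · obtain ⟨i, hi⟩ := end_corner e v hv (S.r e) (Or.inr rfl)
    exact ⟨S.r e, he, i, hi⟩

lemma gr_le {R : Set S.T} {x y : S.V} (h : (S.gr R).Adj x y) : (S.grE Set.univ).Adj x y := by
  obtain ⟨e, he, h⟩ := h
  exact ⟨e, Set.mem_univ _, h⟩

lemma grE_le {Z : Set S.E} {x y : S.V} (h : (S.grE Z).Adj x y) : (S.grE Set.univ).Adj x y := by
  obtain ⟨e, he, h⟩ := h
  exact ⟨e, Set.mem_univ _, h⟩

lemma gr_VR {R : Set S.T} {x y : S.V} (h : (S.gr R).Adj x y) : x ∈ S.VR R ∧ y ∈ S.VR R := by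
  obtain ⟨e, he, h⟩ := h
  exact ⟨mem_VR_of_ER he (joins_end_left h), mem_VR_of_ER he (joins_end_right h)⟩

/-- Edges at an interior vertex are in the region. -/
lemma interior_adj (hRF : RegionFacts S) {R : Set S.T} {L : List (S.V × S.E)} {u : S.V}
    (hR : S.IsRegion R L u) {w w' : S.V} (hw : w ∈ S.VR R) (hwL : w ∉ L.map Prod.fst)
    (h : (S.grE Set.univ).Adj w w') : (S.gr R).Adj w w' := by
  obtain ⟨e, _, he⟩ := h
  obtain ⟨i, hi⟩ := end_corner e w (joins_end_left he) (S.l e) (Or.inl rfl)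
  exact ⟨e, Or.inl (hRF.intTri R L u hR w hw hwL _ i hi), he⟩

lemma grE_walk {Z : Set S.E} {v w : S.V} (p : (S.grE Z).Walk v w) (hv : v ∈ VE Z) :
    ∃ q : (S.grE Set.univ).Walk v w, ∀ z ∈ q.support, z ∈ VE Z := by
  induction p with
  | nil =>
    refine ⟨Walk.nil, ?_⟩
    intro z hz
    simp only [Walk.support_nil, List.mem_singleton] at hz
    exact hz ▸ hv
  | cons h q ih =>
    rename_i x y z
    have hy : y ∈ VE Z := by
      obtain ⟨e, he, hj⟩ := h
      exact ⟨e, he, joins_end_right hj⟩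
    obtain ⟨q', hq'⟩ := ih hy
    refine ⟨Walk.cons (grE_le h) q', ?_⟩
    intro z hz
    rw [Walk.support_cons, List.mem_cons] at hz
    rcases hz with hz | hz
    · exact hz ▸ hv
    · exact hq' z hz

/-- a list walk is a walk of the region graph -/
lemma isW_walk {R : Set S.T} : ∀ (P : List (S.V × S.E)) (b x : S.V), S.IsW b P x →
    (∀ e ∈ P.map Prod.snd, e ∈ S.ER R) →
    ∃ p : (S.gr R).Walk b x, p.support = P.map Prod.fst ++ [x] := by
  intro P
  induction P with
  | nil =>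
    intro b x h _
    have h' : b = x := h
    subst h'
    exact ⟨Walk.nil, rfl⟩
  | cons d P ih =>
    intro b x h he
    obtain ⟨h1, v', h2, h3⟩ := h
    obtain ⟨p, hp⟩ := ih v' x h3 (fun e he' => he e (by
      rw [List.map_cons]
      exact List.mem_cons_of_mem _ he'))
    have hadj : (S.gr R).Adj b v' := by
      refine ⟨d.2, he _ (by simp), ?_⟩
      rw [h1]
      exact h2
    refine ⟨Walk.cons hadj p, ?_⟩
    rw [Walk.support_cons, hp, List.map_cons, h1]
    rfl

lemma up_head_le {V : Type} (m : V → ℕ) : ∀ (l : List V) (x : V), Up m (x :: l) →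
    ∀ y ∈ x :: l, m x ≤ m y := by
  intro l
  induction l with
  | nil =>
    intro x _ y hy
    rw [List.mem_singleton] at hy
    rw [hy]
  | cons z l ih =>
    intro x h y hy
    obtain ⟨h1, h2⟩ := h
    rw [List.mem_cons] at hy
    rcases hy with hy | hy
    · rw [hy]
    · have := ih z h2 y hy
      omega

/-- Subwalks of vertical paths. -/
lemma up_subwalk {V : Type} {Γ : SimpleGraph V} (m : V → ℕ) {b x : V} (p : Γ.Walk b x) :
    Up m p.support → ∀ c ∈ p.support, ∀ c' ∈ p.support, m c ≤ m c' →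
    ∃ q : Γ.Walk c c', ∀ v ∈ q.support, v ∈ p.support ∧ m c ≤ m v ∧ m v ≤ m c' := by
  induction p with
  | nil =>
    rename_i u
    intro _ c hc c' hc' _
    simp only [Walk.support_nil, List.mem_singleton] at hc hc'
    subst hc
    subst hc'
    refine ⟨Walk.nil, ?_⟩
    intro v hv
    simp only [Walk.support_nil, List.mem_singleton] at hv
    subst hv
    simp
  | cons h q ih =>
    rename_i b z x
    intro hup c hc c' hc' hcc
    rw [Walk.support_cons] at hup hc hc'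
    have hq : q.support = z :: q.support.tail := by
      exact (Walk.cons_tail_support q).symm
    have hup' : m z = m b + 1 ∧ Up m q.support := by
      rw [hq] at hup
      rw [hq]
      exact hup
    have hge : ∀ y ∈ q.support, m z ≤ m y := by
      intro y hy
      have := hup'.2
      rw [hq] at this hy
      exact up_head_le m _ _ this y hy
    rw [List.mem_cons] at hc hc'
    by_cases hcb : c = b
    · subst hcb
      rcases hc' with hc' | hc'
      · subst hc'
        refine ⟨Walk.nil, ?_⟩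
        intro v hv
        simp only [Walk.support_nil, List.mem_singleton] at hv
        subst hv
        simp
      · obtain ⟨q', hq'⟩ := ih hup'.2 z q.start_mem_support c' hc' (hge c' hc')
        refine ⟨Walk.cons h q', ?_⟩
        intro v hv
        rw [Walk.support_cons, List.mem_cons] at hv
        rcases hv with hv | hv
        · subst hv
          exact ⟨by simp, le_refl _, hcc⟩
        · obtain ⟨h1, h2, h3⟩ := hq' v hv
          refine ⟨?_, by omega, h3⟩
          rw [Walk.support_cons]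
          exact List.mem_cons_of_mem _ h1
    · have hc2 : c ∈ q.support := by
        rcases hc with hc | hc
        · exact absurd hc hcb
        · exact hc
      have hc2' : c' ∈ q.support := by
        rcases hc' with hc' | hc'
        · exfalso
          have := hge c hc2
          rw [hc'] at hcc
          omega
        · exact hc'
      obtain ⟨q', hq'⟩ := ih hup'.2 c hc2 c' hc2' hcc
      refine ⟨q', ?_⟩
      intro v hv
      obtain ⟨h1, h2, h3⟩ := hq' v hv
      refine ⟨?_, h2, h3⟩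
      rw [Walk.support_cons]
      exact List.mem_cons_of_mem _ h1

/-- transfer of walks to a larger graph -/
lemma walk_mono {V : Type} {Γ Γ' : SimpleGraph V} (hle : ∀ x y, Γ.Adj x y → Γ'.Adj x y)
    {x y : V} (p : Γ.Walk x y) :
    ∃ q : Γ'.Walk x y, q.support = p.support ∧ q.length = p.length := by
  induction p with
  | nil => exact ⟨Walk.nil, rfl, rfl⟩
  | cons h p ih =>
    obtain ⟨q, hq1, hq2⟩ := ih
    refine ⟨Walk.cons (hle _ _ h) q, ?_, ?_⟩
    · rw [Walk.support_cons, Walk.support_cons, hq1]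
    · rw [Walk.length_cons, Walk.length_cons, hq2]

/-- Counting in alternating walks. -/
lemma alt_length {V : Type} {Γ : SimpleGraph V} (X : Set V) [DecidablePred (· ∈ X)]
    (halt : ∀ x y, Γ.Adj x y → (x ∈ X ↔ y ∉ X)) {x y : V} (p : Γ.Walk x y) :
    (x ∈ X → p.length + 1 ≤ 2 * (p.support.filter (· ∈ X)).length) ∧
    (x ∉ X → p.length ≤ 2 * (p.support.filter (· ∈ X)).length) := by
  induction p with
  | nil =>
    rename_i u
    constructor
    · intro hu
      simp [hu]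
    · intro hu
      simp
  | cons h p ih =>
    rename_i u v w
    have hh := halt u v h
    constructor
    · intro hu
      have hv : v ∉ X := hh.1 hu
      have := ih.2 hv
      rw [Walk.length_cons, Walk.support_cons, List.filter_cons_of_pos (by simpa using hu),
        List.length_cons]
      omega
    · intro hu
      have hv : v ∈ X := by
        by_contra hv
        exact hu (hh.2 hv)
      have := ih.1 hv
      rw [Walk.length_cons, Walk.support_cons, List.filter_cons_of_neg (by simpa using hu)]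
      omega


lemma base_mem {R : Set S.T} {L : List (S.V × S.E)} {u : S.V} (hR : S.IsRegion R L u) :
    u ∈ L.map Prod.fst := by
  obtain ⟨hw, _, _, hne, _⟩ := hR
  cases L with
  | nil => exact absurd rfl hne
  | cons d L =>
    obtain ⟨h1, _⟩ := hw
    rw [h1]
    simp

lemma m_le_delta {V : Type} {Γ : SimpleGraph V} {B : Set V} {ℓ m δ : V → ℕ} {M : ℕ}
    (hm : IsExt Γ B ℓ m) (hδ : IsExt Γ B (fun _ => 0) δ) (hℓ : ∀ v ∈ B, ℓ v ≤ M) :
    ∀ n x, δ x = n → (∃ b ∈ B, Γ.Reachable b x) → m x ≤ n + M := by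
  intro n
  induction n with
  | zero =>
    intro x hx hr
    by_cases hxB : x ∈ B
    · rw [hm.eq x hxB]
      have := hℓ x hxB
      omega
    · obtain ⟨y, _, hy⟩ := hδ.par x hr hxB
      omega
  | succ n ih =>
    intro x hx hr
    by_cases hxB : x ∈ B
    · rw [hm.eq x hxB]
      have := hℓ x hxB
      omega
    · obtain ⟨y, hxy, hy⟩ := hδ.par x hr hxB
      obtain ⟨b, hb, hbx⟩ := hr
      have hry : ∃ b ∈ B, Γ.Reachable b y := ⟨b, hb, hbx.trans hxy.reachable⟩
      have h1 := ih y (by omega) hry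
      have h2 := hm.lip y x hxy.symm hry
      omega

lemma delta_le_m {V : Type} {Γ : SimpleGraph V} {B : Set V} {ℓ m δ : V → ℕ}
    (hm : IsExt Γ B ℓ m) (hδ : IsExt Γ B (fun _ => 0) δ) :
    ∀ n x, m x = n → (∃ b ∈ B, Γ.Reachable b x) → δ x ≤ n := by
  intro n
  induction n with
  | zero =>
    intro x hx hr
    by_cases hxB : x ∈ B
    · rw [hδ.eq x hxB]
    · obtain ⟨y, _, hy⟩ := hm.par x hr hxB
      omega
  | succ n ih =>
    intro x hx hr
    by_cases hxB : x ∈ B
    · rw [hδ.eq x hxB]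
      omega
    · obtain ⟨y, hxy, hy⟩ := hm.par x hr hxB
      obtain ⟨b, hb, hbx⟩ := hr
      have hry : ∃ b ∈ B, Γ.Reachable b y := ⟨b, hb, hbx.trans hxy.reachable⟩
      have h1 := ih y (by omega) hry
      have h2 := hδ.lip y x hxy.symm hry
      omega

/-- connectedness of the sets `D i` -/
lemma conn_D {Φ : Set S.V} (hFace : IsFaceSet S Φ) (C : Set S.V) (D : Set S.V)
    (hD : ∀ v, v ∈ D ↔ (v ∉ Φ ∧ (v ∈ C ∨ ∃ φ ∈ C, φ ∈ Φ ∧ (S.grE Set.univ).Adj φ v)))
    {a b : S.V} (p : (S.grE Set.univ).Walk a b) :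
    (∀ v ∈ p.support, v ∈ C) →
    ∀ x, ((a ∉ Φ ∧ x = a) ∨ (a ∈ Φ ∧ (S.grE Set.univ).Adj a x)) →
    ∀ y, ((b ∉ Φ ∧ y = b) ∨ (b ∈ Φ ∧ (S.grE Set.univ).Adj b y)) →
    ∃ q : (S.grE Set.univ).Walk x y, ∀ v ∈ q.support, v ∈ D := by
  have hnb : ∀ φ ∈ Φ, φ ∈ C → ∀ x y, (S.grE Set.univ).Adj φ x → (S.grE Set.univ).Adj φ y →
      ∃ q : (S.grE Set.univ).Walk x y, ∀ v ∈ q.support, v ∈ D := by
    intro φ hφ hφC x y hx hy
    obtain ⟨q, hq⟩ := hFace.conn φ hφ x y hx hy
    refine ⟨q, ?_⟩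
    intro v hv
    obtain ⟨h1, h2⟩ := hq v hv
    exact (hD v).2 ⟨h1, Or.inr ⟨φ, hφC, hφ, h2⟩⟩
  induction p with
  | nil =>
    rename_i a
    intro hC x hx y hy
    have haC : a ∈ C := hC a (by simp)
    rcases hx with ⟨ha, hx⟩ | ⟨ha, hx⟩
    · rcases hy with ⟨_, hy⟩ | ⟨ha', _⟩
      · subst hx
        subst hy
        refine ⟨Walk.nil, ?_⟩
        intro v hv
        simp only [Walk.support_nil, List.mem_singleton] at hv
        subst hv
        exact (hD _).2 ⟨ha, Or.inl haC⟩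
      · exact absurd ha' ha
    · rcases hy with ⟨ha', _⟩ | ⟨_, hy⟩
      · exact absurd ha ha'
      · exact hnb a ha haC x y hx hy
  | cons h q ih =>
    rename_i a c b
    intro hC x hx y hy
    have haC : a ∈ C := hC a (by simp)
    have hqC : ∀ v ∈ q.support, v ∈ C := by
      intro v hv
      apply hC
      rw [Walk.support_cons]
      exact List.mem_cons_of_mem _ hv
    have hcC : c ∈ C := hqC c q.start_mem_support
    have key : ∃ z, ((c ∉ Φ ∧ z = c) ∨ (c ∈ Φ ∧ (S.grE Set.univ).Adj c z)) ∧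
        ∃ r : (S.grE Set.univ).Walk x z, ∀ v ∈ r.support, v ∈ D := by
      rcases hx with ⟨ha, hx⟩ | ⟨ha, hx⟩
      · subst hx
        by_cases hc : c ∈ Φ
        · refine ⟨x, Or.inr ⟨hc, h.symm⟩, Walk.nil, ?_⟩
          intro v hv
          simp only [Walk.support_nil, List.mem_singleton] at hv
          subst hv
          exact (hD _).2 ⟨ha, Or.inl haC⟩
        · refine ⟨c, Or.inl ⟨hc, rfl⟩, Walk.cons h Walk.nil, ?_⟩
          intro v hv
          simp only [Walk.support_cons, Walk.support_nil, List.mem_cons, List.not_mem_nil,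
            or_false] at hv
          rcases hv with hv | hv
          · subst hv
            exact (hD _).2 ⟨ha, Or.inl haC⟩
          · subst hv
            exact (hD _).2 ⟨hc, Or.inl hcC⟩
      · have hc : c ∉ Φ := fun hc => hFace.indep a ha c hc h
        obtain ⟨r, hr⟩ := hnb a ha haC x c hx h
        exact ⟨c, Or.inl ⟨hc, rfl⟩, r, hr⟩
    obtain ⟨z, hz, r, hr⟩ := key
    obtain ⟨q', hq'⟩ := ih hqC z hz y hy
    refine ⟨r.append q', ?_⟩
    intro v hv
    rw [Walk.mem_support_append_iff] at hv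
    rcases hv with hv | hv
    · exact hr v hv
    · exact hq' v hv

/-- short walks from deep vertices stay in the region -/
lemma stay {R : Set S.T} {δ : S.V → ℕ} {Z : Set S.E}
    (hint : ∀ w ∈ S.VR R, 1 ≤ δ w → ∀ w', (S.grE Set.univ).Adj w w' → (S.gr R).Adj w w')
    (hδadj : ∀ x y, (S.gr R).Adj x y → δ x ≤ δ y + 1) {v w : S.V} (p : (S.grE Z).Walk v w) :
    v ∈ S.VR R → p.length ≤ δ v → ∃ q : (S.gr R).Walk v w, q.length = p.length := by
  induction p with
  | nil =>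
    intro _ _
    exact ⟨Walk.nil, rfl⟩
  | cons h p ih =>
    rename_i a c b
    intro ha hl
    rw [Walk.length_cons] at hl
    have h1 : (S.gr R).Adj a c := hint a ha (by omega) c (grE_le h)
    have h2 := hδadj a c h1
    obtain ⟨q, hq⟩ := ih (gr_VR h1).2 (by omega)
    exact ⟨Walk.cons h1 q, by rw [Walk.length_cons, Walk.length_cons, hq]⟩


lemma fin3a : ∀ q f n : Fin 3, f ≠ q → q ≠ n → q ≠ n + 1 → f = n ∨ f = n + 1 := by decide

lemma fin3b : ∀ n : Fin 3, n ≠ n + 1 := by decide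

theorem shortTw : ShortTwStatement := by
  classical
  intro S Φ k M hRF hBfs hSep hLev hFace hSP hkM R L u hR ℓ m hℓ hm x1 x2 hx1 hx12 hmx1
    b1 b2 P1 P2 hb1 hb2 hW1 hW2 hE1 hE2 hU1 hU2
  have hfin : Finite S.V := S.fV
  obtain ⟨δ, hδ⟩ := hBfs S.V (S.gr R) {v | v ∈ L.map Prod.fst} (fun _ => 0)
    (fun _ _ _ _ _ => Nat.zero_le _)
  have hreach : ∀ x ∈ S.VR R, ∃ b ∈ {v | v ∈ L.map Prod.fst}, (S.gr R).Reachable b x :=
    fun x hx => ⟨u, base_mem hR, hRF.conn R L u hR x hx⟩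
  have hmδ : ∀ x ∈ S.VR R, m x ≤ δ x + M := fun x hx =>
    m_le_delta hm hδ hℓ _ x rfl (hreach x hx)
  have hδm : ∀ x ∈ S.VR R, δ x ≤ m x := fun x hx =>
    delta_le_m hm hδ _ x rfl (hreach x hx)
  have hδadj : ∀ x y, (S.gr R).Adj x y → δ x ≤ δ y + 1 := fun x y h =>
    hδ.lip y x h.symm (hreach y (gr_VR h).2)
  have hδF : ∀ w, 1 ≤ δ w → w ∉ L.map Prod.fst := by
    intro w hw hwL
    have := hδ.eq w hwL
    omega
  have hint : ∀ w ∈ S.VR R, 1 ≤ δ w → ∀ w', (S.grE Set.univ).Adj w w' → (S.gr R).Adj w w' :=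
    fun w hw h1 w' h => interior_adj hRF hR hw (hδF w h1) h
  have hx2 : x2 ∈ S.VR R := (gr_VR hx12).2
  have hδ1 : 3 * M + 2 ≤ δ x1 := by
    have := hmδ x1 hx1
    omega
  have hδ2 : 3 * M + 1 ≤ δ x2 := by
    have := hδadj x1 x2 hx12
    omega
  -- the levels
  have hJ : ∀ i : Fin (k + 2), 2 * M + 1 + 3 * (i : ℕ) ≤ 3 * M := by
    intro i
    have := i.2
    omega
  have hZex : ∀ i : Fin (k + 2), ∃ Z : Set S.E,
      (∀ e ∈ Z, e ∈ S.ER R ∧ δ (S.a e) = 2 * M + 1 + 3 * (i : ℕ) ∧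
        δ (S.b e) = 2 * M + 1 + 3 * (i : ℕ)) ∧
      (∀ v w, (∃ e ∈ Z, S.a e = v ∨ S.b e = v) → (∃ e ∈ Z, S.a e = w ∨ S.b e = w) →
        (S.grE Z).Reachable v w) ∧
      (∀ y, (∃ q : (S.gr R).Walk x1 y, ∀ v ∈ q.support, 2 * M + 1 + 3 * (i : ℕ) < δ v) →
        ∀ b ∈ L.map Prod.fst, ∀ p : (S.grE Set.univ).Walk y b,
          ∃ v ∈ p.support, ∃ e ∈ Z, S.a e = v ∨ S.b e = v) := by
    intro i
    have h1 := hJ i
    exact hLev R L u hR δ hδ _ (by omega) x1 hx1 (by omega)
  choose Zf hZlev hZconn hZsep using hZex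
  -- facts about the level sets
  have hCδ : ∀ i, ∀ w ∈ VE (Zf i), δ w = 2 * M + 1 + 3 * (i : ℕ) ∧ w ∈ S.VR R := by
    intro i w hw
    obtain ⟨e, he, hew⟩ := hw
    obtain ⟨h1, h2, h3⟩ := hZlev i e he
    refine ⟨?_, mem_VR_of_ER h1 hew⟩
    rcases hew with h | h
    · rw [← h, h2]
    · rw [← h, h3]
  -- the vertical paths as walks
  obtain ⟨p1, hp1⟩ := isW_walk P1 b1 x1 hW1 hE1
  obtain ⟨p2, hp2⟩ := isW_walk P2 b2 x2 hW2 hE2
  -- a vertical path meets every level set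
  have hcross : ∀ (l : Fin (k + 2)) (b x : S.V) (p : (S.gr R).Walk b x), b ∈ L.map Prod.fst →
      (∃ q : (S.gr R).Walk x1 x, ∀ v ∈ q.support, 3 * M < δ v) →
      ∃ c ∈ p.support, c ∈ VE (Zf l) := by
    intro l b x p hb hq
    obtain ⟨q, hq⟩ := hq
    obtain ⟨p', hp', _⟩ := walk_mono (fun x y h => gr_le h) p.reverse
    obtain ⟨v, hv, hvZ⟩ := hZsep l x ⟨q, fun v hv => by
      have h1 := hq v hv
      have h2 := hJ l
      omega⟩ b hb p'
    refine ⟨v, ?_, hvZ⟩
    rw [hp', Walk.support_reverse, List.mem_reverse] at hv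
    exact hv
  have hq1 : ∃ q : (S.gr R).Walk x1 x1, ∀ v ∈ q.support, 3 * M < δ v := by
    refine ⟨Walk.nil, ?_⟩
    intro v hv
    simp only [Walk.support_nil, List.mem_singleton] at hv
    subst hv
    omega
  have hq2 : ∃ q : (S.gr R).Walk x1 x2, ∀ v ∈ q.support, 3 * M < δ v := by
    refine ⟨Walk.cons hx12 Walk.nil, ?_⟩
    intro v hv
    simp only [Walk.support_cons, Walk.support_nil, List.mem_cons, List.not_mem_nil,
      or_false] at hv
    rcases hv with hv | hv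
    · subst hv
      omega
    · subst hv
      omega
  -- the sets `D i`
  let D : Fin (k + 2) → Set S.V := fun i =>
    {v | v ∉ Φ ∧ (v ∈ VE (Zf i) ∨ ∃ φ ∈ VE (Zf i), φ ∈ Φ ∧ (S.grE Set.univ).Adj φ v)}
  have hDiff : ∀ i v, v ∈ D i ↔
      (v ∉ Φ ∧ (v ∈ VE (Zf i) ∨ ∃ φ ∈ VE (Zf i), φ ∈ Φ ∧ (S.grE Set.univ).Adj φ v)) :=
    fun i v => Iff.rfl
  have hDδ : ∀ i, ∀ v ∈ D i, 2 * M + 1 + 3 * (i : ℕ) ≤ δ v + 1 ∧
      δ v ≤ 2 * M + 1 + 3 * (i : ℕ) + 1 := by
    intro i v hv
    rcases hv.2 with h | ⟨φ, hφ, _, h⟩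
    · have := (hCδ i v h).1
      omega
    · have h1 := hCδ i φ hφ
      have h2 := hint φ h1.2 (by omega) v h
      have h3 := hδadj φ v h2
      have h4 := hδadj v φ h2.symm
      omega
  have hDne : ∀ i, (D i).Nonempty := by
    intro i
    obtain ⟨c, _, hc⟩ := hcross i b1 x1 p1 hb1 hq1
    by_cases hcΦ : c ∈ Φ
    · obtain ⟨e, he, hec⟩ := hc
      have hadj : ∃ c', (S.grE Set.univ).Adj c c' ∧ (S.a e = c' ∨ S.b e = c') := by
        rcases hec with h | h
        · exact ⟨S.b e, ⟨e, Set.mem_univ _, Or.inl ⟨h, rfl⟩⟩, Or.inr rfl⟩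
        · exact ⟨S.a e, ⟨e, Set.mem_univ _, Or.inr ⟨rfl, h⟩⟩, Or.inl rfl⟩
      obtain ⟨c', hcc', hc'⟩ := hadj
      exact ⟨c', fun h => hFace.indep c hcΦ c' h hcc', Or.inl ⟨e, he, hc'⟩⟩
    · exact ⟨c, hcΦ, Or.inl hc⟩
  have hDΦ : ∀ i, ∀ x ∈ D i, x ∉ Φ := fun i x hx => hx.1
  have hCconn : ∀ i, ∀ x ∈ VE (Zf i), ∀ y ∈ VE (Zf i), ∃ p : (S.grE Set.univ).Walk x y,
      ∀ v ∈ p.support, v ∈ VE (Zf i) := by
    intro i x hx y hy
    obtain ⟨p⟩ := hZconn i x y hx hy
    exact grE_walk p hx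
  have hrep : ∀ i, ∀ x ∈ D i, ∃ a ∈ VE (Zf i),
      ((a ∉ Φ ∧ x = a) ∨ (a ∈ Φ ∧ (S.grE Set.univ).Adj a x)) := by
    intro i x hx
    rcases hx.2 with h | ⟨φ, hφ, hφ2, h⟩
    · exact ⟨x, h, Or.inl ⟨hx.1, rfl⟩⟩
    · exact ⟨φ, hφ, Or.inr ⟨hφ2, h⟩⟩
  have hDconn : ∀ i, ∀ x ∈ D i, ∀ y ∈ D i, ∃ p : (S.grE Set.univ).Walk x y,
      ∀ v ∈ p.support, v ∈ D i := by
    intro i x hx y hy
    obtain ⟨a, ha, hax⟩ := hrep i x hx
    obtain ⟨b, hb, hby⟩ := hrep i y hy
    obtain ⟨p, hp⟩ := hCconn i a ha b hb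
    exact conn_D hFace (VE (Zf i)) (D i) (hDiff i) p hp x hax y hby
  have hDdisj : ∀ i j, i ≠ j → Disjoint (D i) (D j) := by
    intro i j hij
    rw [Set.disjoint_left]
    intro v hvi hvj
    have h1 := hDδ i v hvi
    have h2 := hDδ j v hvj
    apply hij
    apply Fin.ext
    omega
  obtain ⟨A, X, hXc, hAX, hAΦ, hXΦ, hAcl, i, j, hDi, hDj⟩ := hSP D hDne hDΦ hDconn hDdisj
  -- triangles touching `A`
  let N : Set S.T := {t | ∃ i, S.c t i ∈ A}
  have hbd1 : ∀ e t t', (S.l e = t ∨ S.r e = t) → (S.l e = t' ∨ S.r e = t') → t ∈ N → t' ∉ N →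
      (S.a e ∈ Φ ∧ S.b e ∈ X) ∨ (S.b e ∈ Φ ∧ S.a e ∈ X) := by
    intro e t t' ht ht' htN htN'
    have haA : S.a e ∉ A := by
      intro h
      obtain ⟨i, hi⟩ := a_corner e t' ht'
      exact htN' ⟨i, hi ▸ h⟩
    have hbA : S.b e ∉ A := by
      intro h
      obtain ⟨i, hi⟩ := b_corner e t' ht'
      exact htN' ⟨i, hi ▸ h⟩
    obtain ⟨q, hq⟩ := htN
    obtain ⟨f, hf⟩ := hFace.tri t
    obtain ⟨n, hn⟩ := ends_corner e t ht
    -- the corner `q` is opposite to `e`
    have hqn : q ≠ n ∧ q ≠ n + 1 := by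
      constructor
      · intro h
        subst h
        rcases hn with hn | hn
        · exact haA (hn.1 ▸ hq)
        · exact hbA (hn.2 ▸ hq)
      · intro h
        subst h
        rcases hn with hn | hn
        · exact hbA (hn.2 ▸ hq)
        · exact haA (hn.1 ▸ hq)
    have hqf : f ≠ q := by
      intro h
      subst h
      exact hAΦ _ hq hf
    have hfn : f = n ∨ f = n + 1 := fin3a q f n hqf hqn.1 hqn.2
    have hX : ∀ g, g ≠ q → g ≠ f → S.c t g ∉ A → S.c t g ∈ X := by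
      intro g hgq hgf hgA
      have h1 : S.c t g ∉ Φ := by
        intro h
        exact hFace.indep _ h _ hf (corner_adj t g f hgf)
      rcases hAcl _ hq (S.c t g) h1 (corner_adj t q g (Ne.symm hgq)) with h | h
      · exact absurd h hgA
      · exact h
    have hnn : n ≠ n + 1 := fin3b n
    rcases hn with hn | hn
    · rcases hfn with h | h
      · left
        subst h
        refine ⟨hn.1 ▸ hf, ?_⟩
        rw [hn.2]
        exact hX (f + 1) (Ne.symm hqn.2) (Ne.symm hnn) (hn.2 ▸ hbA)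
      · right
        subst h
        refine ⟨hn.2 ▸ hf, ?_⟩
        rw [hn.1]
        exact hX n (Ne.symm hqn.1) hnn (hn.1 ▸ haA)
    · rcases hfn with h | h
      · right
        subst h
        refine ⟨hn.2 ▸ hf, ?_⟩
        rw [hn.1]
        exact hX (f + 1) (Ne.symm hqn.2) (Ne.symm hnn) (hn.1 ▸ haA)
      · left
        subst h
        refine ⟨hn.1 ▸ hf, ?_⟩
        rw [hn.2]
        exact hX n (Ne.symm hqn.1) hnn (hn.2 ▸ hbA)
  have hbdN : ∀ e ∈ S.bd N, (S.a e ∈ Φ ∧ S.b e ∈ X) ∨ (S.b e ∈ Φ ∧ S.a e ∈ X) := by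
    intro e he
    by_cases hl : S.l e ∈ N
    · have hr : S.r e ∉ N := fun hr => he ⟨fun _ => hr, fun _ => hl⟩
      exact hbd1 e _ _ (Or.inl rfl) (Or.inr rfl) hl hr
    · have hr : S.r e ∈ N := by
        by_contra hr
        exact he ⟨fun h => absurd h hl, fun h => absurd h hr⟩
      exact hbd1 e _ _ (Or.inr rfl) (Or.inl rfl) hr hl
  have hNi : ∀ t q, S.c t q ∈ VE (Zf i) → t ∈ N := by
    intro t q hq
    by_cases hqΦ : S.c t q ∈ Φ
    · have hne : q ≠ q + 1 := fin3b q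
      have hadj := corner_adj t q (q + 1) hne
      refine ⟨q + 1, hDi ⟨fun h => hFace.indep _ hqΦ _ h hadj, Or.inr ⟨_, hq, hqΦ, hadj⟩⟩⟩
    · exact ⟨q, hDi ⟨hqΦ, Or.inl hq⟩⟩
  have hDjA : ∀ v ∈ D j, v ∉ A ∧ v ∉ X := by
    intro v hv
    have := Set.disjoint_left.mp hDj hv
    exact ⟨fun h => this (Or.inl h), fun h => this (Or.inr h)⟩
  have hNj : ∀ t q, S.c t q ∈ VE (Zf j) → t ∉ N := by
    intro t q hq hN
    obtain ⟨g, hg⟩ := hN
    have hgΦ := hAΦ _ hg
    by_cases hqΦ : S.c t q ∈ Φ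
    · have hne : q ≠ g := by
        intro h
        subst h
        exact hgΦ hqΦ
      have hadj := corner_adj t q g hne
      exact (hDjA (S.c t g) ⟨hgΦ, Or.inr ⟨_, hq, hqΦ, hadj⟩⟩).1 hg
    · have h1 := hDjA (S.c t q) ⟨hqΦ, Or.inl hq⟩
      by_cases hne : g = q
      · subst hne
        exact h1.1 hg
      · rcases hAcl _ hg _ hqΦ (corner_adj t g q hne) with h | h
        · exact h1.1 h
        · exact h1.2 h
  have hCne : ∀ i, (VE (Zf i)).Nonempty := by
    intro i
    obtain ⟨c, _, hc⟩ := hcross i b1 x1 p1 hb1 hq1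
    exact ⟨c, hc⟩
  obtain ⟨Z, hZN, hZc, hZs⟩ := hSep N (VE (Zf i)) (VE (Zf j)) (hCne i) (hCne j) (hCconn i)
    (hCconn j) hNi hNj
  -- both vertical paths meet `Z`
  have hmeet : ∀ (b x : S.V) (p : (S.gr R).Walk b x), b ∈ L.map Prod.fst → Up m p.support →
      (∃ q : (S.gr R).Walk x1 x, ∀ v ∈ q.support, 3 * M < δ v) →
      ∃ v ∈ p.support, v ∈ VE Z ∧ v ∈ S.VR R ∧ 2 * M + 1 ≤ m v ∧ m v ≤ 4 * M := by
    intro b x p hb hup hq
    obtain ⟨ci, hci, hciZ⟩ := hcross i b x p hb hq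
    obtain ⟨cj, hcj, hcjZ⟩ := hcross j b x p hb hq
    have h1 := hCδ i ci hciZ
    have h2 := hCδ j cj hcjZ
    have h3 := hmδ ci h1.2
    have h4 := hδm ci h1.2
    have h5 := hmδ cj h2.2
    have h6 := hδm cj h2.2
    have h7 := hJ i
    have h8 := hJ j
    have hVR : ∀ (a c : S.V) (q : (S.gr R).Walk a c), a ∈ S.VR R → ∀ v ∈ q.support,
        v ∈ S.VR R := by
      intro a c q
      induction q with
      | nil =>
        intro ha v hv
        simp only [Walk.support_nil, List.mem_singleton] at hv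
        exact hv ▸ ha
      | cons h q ih =>
        intro ha v hv
        rw [Walk.support_cons, List.mem_cons] at hv
        rcases hv with hv | hv
        · exact hv ▸ ha
        · exact ih (gr_VR h).2 v hv
    have h9 : ∀ (t : Fin (k + 2)), 3 * (t : ℕ) + 1 ≤ M := by
      intro t
      have := t.2
      omega
    have h10 := h9 i
    have h11 := h9 j
    rcases le_total (m ci) (m cj) with hle | hle
    · obtain ⟨q, hq'⟩ := up_subwalk m p hup ci hci cj hcj hle
      obtain ⟨q', hq'', _⟩ := walk_mono (fun x y h => gr_le h) q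
      obtain ⟨v, hv, hvZ⟩ := hZs ci hciZ cj hcjZ q'
      rw [hq''] at hv
      obtain ⟨hv1, hv2, hv3⟩ := hq' v hv
      exact ⟨v, hv1, hvZ, hVR _ _ q h1.2 v hv, by omega, by omega⟩
    · obtain ⟨q, hq'⟩ := up_subwalk m p hup cj hcj ci hci hle
      obtain ⟨q', hq'', _⟩ := walk_mono (fun x y h => gr_le h) q.reverse
      obtain ⟨v, hv, hvZ⟩ := hZs ci hciZ cj hcjZ q'
      rw [hq'', Walk.support_reverse, List.mem_reverse] at hv
      obtain ⟨hv1, hv2, hv3⟩ := hq' v hv
      exact ⟨v, hv1, hvZ, hVR _ _ q h2.2 v hv, by omega, by omega⟩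
  obtain ⟨v1, hv1, hv1Z, hv1R, hv1m, hv1m'⟩ := hmeet b1 x1 p1 hb1 (hp1 ▸ hU1) hq1
  obtain ⟨v2, hv2, hv2Z, hv2R, hv2m, hv2m'⟩ := hmeet b2 x2 p2 hb2 (hp2 ▸ hU2) hq2
  rw [hp1, List.mem_append, List.mem_singleton] at hv1
  rw [hp2, List.mem_append, List.mem_singleton] at hv2
  have hv1P : v1 ∈ P1.map Prod.fst := by
    rcases hv1 with h | h
    · exact h
    · exfalso
      rw [h] at hv1m'
      omega
  have hmx2 : 4 * M + 1 ≤ m x2 := by
    have := hm.lip x2 x1 hx12.symm (hreach x2 hx2)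
    omega
  have hv2P : v2 ∈ P2.map Prod.fst := by
    rcases hv2 with h | h
    · exact h
    · exfalso
      rw [h] at hv2m'
      omega
  have hδv1 : M + 1 ≤ δ v1 := by
    have := hmδ v1 hv1R
    omega
  -- the path in `Z`
  obtain ⟨p, hp⟩ := (hZc v1 v2 hv1Z hv2Z).exists_isPath
  have halt : ∀ x y, (S.grE Z).Adj x y → (x ∈ X ↔ y ∉ X) := by
    rintro x y ⟨e, he, hj⟩
    have h1 := hbdN e (hZN he)
    rcases hj with ⟨ha, hb⟩ | ⟨ha, hb⟩
    · rw [ha, hb] at h1
      rcases h1 with h | h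
      · exact ⟨fun h' => absurd h.1 (hXΦ x h'), fun h' => absurd h.2 h'⟩
      · exact ⟨fun _ h' => hXΦ y h' h.1, fun _ => h.2⟩
    · rw [ha, hb] at h1
      rcases h1 with h | h
      · exact ⟨fun _ h' => hXΦ y h' h.1, fun _ => h.2⟩
      · exact ⟨fun h' => absurd h.1 (hXΦ x h'), fun h' => absurd h.2 h'⟩
  have hlen := alt_length X halt p
  have hcnt : (p.support.filter (· ∈ X)).length ≤ k + 1 := by
    have hnd : (p.support.filter (· ∈ X)).Nodup := List.Nodup.filter _ hp.support_nodup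
    rw [← List.toFinset_card_of_nodup hnd]
    have h1 : (((p.support.filter (· ∈ X)).toFinset : Finset S.V) : Set S.V) ⊆ X := by
      intro x hx
      simp only [List.coe_toFinset, Set.mem_ofPred_eq, List.mem_filter, decide_eq_true_eq] at hx
      exact hx.2
    have h2 := Set.ncard_le_ncard h1 (Set.toFinite X)
    rw [Set.ncard_coe_finset] at h2
    exact h2.trans hXc
  have hplen : p.length ≤ 2 * (k + 1) := by
    by_cases hvX : v1 ∈ X
    · have := hlen.1 hvX
      omega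
    · have := hlen.2 hvX
      omega
  obtain ⟨q, hq⟩ := stay hint hδadj p hv1R (by omega)
  refine ⟨v1, hv1P, v2, hv2P, ?_, hv1m', hv2m', q, by omega⟩
  intro b hb p'
  have := hδ.ub b hb v1 p'
  omega

end Helper39_PP
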