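import Pool.Agent.Helper91_PP.Statements

/-!
# Module J1 : small separators from a tree decomposition
-/

namespace Helper39_PP

open H91PP SimpleGraph

/-- In a finite tree, a map sending every node to a neighbour has a 2-cycle. -/
lemma exists_two_cycle {I : Type} [Finite I] (T : SimpleGraph I) (hT : T.IsTree)
    (nx : I → I) (hnx : ∀ t, T.Adj t (nx t)) : ∃ t, nx (nx t) = t := by
  classical
  have := Fintype.ofFinite I
  have hcard := hT.card_edgeFinset
  let f : I → Sym2 I := fun t => s(t, nx t)
  have hf : ∀ t ∈ (Finset.univ : Finset I), f t ∈ T.edgeFinset := by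
    intro t _
    simp only [SimpleGraph.mem_edgeFinset, f, SimpleGraph.mem_edgeSet]
    exact hnx t
  have hlt : T.edgeFinset.card < (Finset.univ : Finset I).card := by
    rw [Finset.card_univ]
    omega
  obtain ⟨x, _, y, _, hxy, hfe⟩ := Finset.exists_ne_map_eq_of_card_lt_of_maps_to hlt hf
  simp only [f, Sym2.eq_iff] at hfe
  rcases hfe with h | h
  · exact absurd h.1 hxy
  · exact ⟨x, by rw [h.2, ← h.1]⟩

theorem treeSep : TreeSepStatement := by
  classical
  intro V _ G k hG D hne hconn hdisj
  obtain ⟨I, hI, T, bag, hT, hcov, hedge, hpre, hcard⟩ := hG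
  have := Fintype.ofFinite I
  -- the nodes whose bags meet `D i`
  let Sn : Fin (k + 2) → Set I := fun i => {t | ∃ v ∈ D i, v ∈ bag t}
  -- every node misses one of the sets
  have hmiss : ∀ t, ∃ i, t ∉ Sn i := by
    intro t
    by_contra hcon
    push Not at hcon
    choose v hvD hvb using hcon
    have hinj : Function.Injective v := by
      intro i j hij
      by_contra hne'
      exact (Set.disjoint_left.mp (hdisj i j hne')) (hvD i) (hij ▸ hvD j)
    have h1 : (Finset.univ.image v).card = k + 2 := by
      rw [Finset.card_image_of_injective _ hinj, Finset.card_univ, Fintype.card_fin]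
    have h2 : Finset.univ.image v ⊆ bag t := by
      intro x hx
      simp only [Finset.mem_image, Finset.mem_univ, true_and] at hx
      obtain ⟨i, rfl⟩ := hx
      exact hvb i
    have h3 := Finset.card_le_card h2
    have h4 := hcard t
    omega
  choose ix hix using hmiss
  -- nonempty
  have hSne : ∀ i, ∃ s, s ∈ Sn i := by
    intro i
    obtain ⟨v, hv⟩ := hne i
    obtain ⟨s, hs⟩ := hcov v
    exact ⟨s, v, hv, hs⟩
  choose sx hsx using hSne
  -- for every node `t` a neighbour `t'` and a path from `t'` to `sx (ix t)` avoiding `t`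
  have hnext : ∀ t, ∃ t', T.Adj t t' ∧ ∃ p : T.Walk t' (sx (ix t)), t ∉ p.support := by
    intro t
    have hcn : T.Reachable t (sx (ix t)) := hT.1.preconnected t _
    obtain ⟨p, hp⟩ := hcn.exists_isPath
    have hns : t ≠ sx (ix t) := by
      intro heq
      have := hsx (ix t)
      rw [← heq] at this
      exact hix t this
    revert hp hns p
    generalize sx (ix t) = z
    intro p hp hns
    cases p with
    | nil => exact absurd rfl hns
    | cons hadj q =>
      rename_i t'
      rw [SimpleGraph.Walk.cons_isPath_iff] at hp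
      exact ⟨t', hadj, q, hp.2⟩
  choose nx hnxadj hnxw using hnext
  obtain ⟨t, ht⟩ := exists_two_cycle T hT nx hnxadj
  set t' := nx t with ht'
  have hadj : T.Adj t t' := hnxadj t
  -- the tree without the edge
  let T' : SimpleGraph I := T.deleteEdges {s(t, t')}
  have hT'adj : ∀ a b, T.Adj a b → s(a, b) ≠ s(t, t') → T'.Adj a b := by
    intro a b hab hne'
    rw [SimpleGraph.deleteEdges_adj]
    exact ⟨hab, hne'⟩
  -- the edge is a bridge
  have hbridge : ¬ T'.Reachable t t' := by
    have hac := hT.2
    rw [SimpleGraph.isAcyclic_iff_forall_adj_isBridge] at hac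
    have h1 := hac hadj
    rw [SimpleGraph.isBridge_iff] at h1
    exact h1
  -- walks avoiding a node avoid the edge
  have havoid : ∀ (w : I) (hw : w = t ∨ w = t') (a b : I) (p : T.Walk a b), w ∉ p.support →
      T'.Reachable a b := by
    intro w hw a b p
    induction p with
    | nil => intro _; exact Reachable.refl _
    | cons h q ih =>
      rename_i a c b
      intro hns
      rw [SimpleGraph.Walk.support_cons, List.mem_cons, not_or] at hns
      have hc : w ≠ c := by
        intro hcw
        exact hns.2 (hcw ▸ q.start_mem_support)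
      have hne' : s(a, c) ≠ s(t, t') := by
        intro heq
        rw [Sym2.eq_iff] at heq
        rcases hw with hw | hw <;> rcases heq with h2 | h2
        · exact hns.1 (hw.trans h2.1.symm)
        · exact hc (hw.trans h2.2.symm)
        · exact hc (hw.trans h2.2.symm)
        · exact hns.1 (hw.trans h2.1.symm)
      exact (hT'adj a c h hne').reachable.trans (ih hns.2)
  -- connectivity of the node set of a vertex
  have hvert : ∀ x : V, (t ∉ {i | x ∈ bag i} ∨ t' ∉ {i | x ∈ bag i}) → ∀ a b, x ∈ bag a →
      x ∈ bag b → T'.Reachable a b := by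
    intro x hx a b ha hb
    have h1 := hpre x ⟨a, ha⟩ ⟨b, hb⟩
    let f : (T.induce {i | x ∈ bag i}) →g T' :=
      { toFun := fun z => z.1
        map_rel' := by
          intro z w hzw
          have hzw' : T.Adj z.1 w.1 := hzw
          refine hT'adj _ _ hzw' ?_
          intro heq
          rw [Sym2.eq_iff] at heq
          rcases heq with h2 | h2
          · rcases hx with hx | hx
            · exact hx (h2.1 ▸ z.2)
            · exact hx (h2.2 ▸ w.2)
          · rcases hx with hx | hx
            · exact hx (h2.2 ▸ w.2)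
            · exact hx (h2.1 ▸ z.2) }
    exact h1.map f
  -- connectivity of `Sn i` when it misses `t` or `t'`
  have hset : ∀ i, (t ∉ Sn i ∨ t' ∉ Sn i) → ∀ a ∈ Sn i, ∀ b ∈ Sn i, T'.Reachable a b := by
    intro i hi a ha b hb
    obtain ⟨x, hxD, hxa⟩ := ha
    obtain ⟨y, hyD, hyb⟩ := hb
    have hv : ∀ z ∈ D i, (t ∉ {i | z ∈ bag i} ∨ t' ∉ {i | z ∈ bag i}) := by
      intro z hz
      rcases hi with hi | hi
      · exact Or.inl (fun h => hi ⟨z, hz, h⟩)
      · exact Or.inr (fun h => hi ⟨z, hz, h⟩)
    obtain ⟨p, hp⟩ := hconn i x hxD y hyD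
    have key : ∀ (x y : V) (p : G.Walk x y), (∀ v ∈ p.support, v ∈ D i) → ∀ a, x ∈ bag a →
        ∀ b, y ∈ bag b → T'.Reachable a b := by
      intro x y p
      induction p with
      | nil =>
        rename_i u
        intro hs a ha b hb
        exact hvert u (hv u (hs u (by simp))) a b ha hb
      | cons h q ih =>
        rename_i x z y
        intro hs a ha b hb
        obtain ⟨c, hc1, hc2⟩ := hedge x z h
        have hs' : ∀ v ∈ q.support, v ∈ D i := by
          intro v hv'
          apply hs
          rw [SimpleGraph.Walk.support_cons]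
          exact List.mem_cons_of_mem _ hv'
        have h1 := hvert x (hv x (hs x (by simp))) a c ha hc1
        exact h1.trans (ih hs' c hc2 b hb)
    exact key x y p hp a hxa b hyb
  -- the two index sets
  set j := ix t with hj
  set i := ix t' with hi
  have htj : t ∉ Sn j := hix t
  have hti : t' ∉ Sn i := hix t'
  -- `Sn j` is on the side of `t'`
  have hsidej : ∀ a ∈ Sn j, T'.Reachable t' a := by
    intro a ha
    obtain ⟨p, hp⟩ := hnxw t
    have h1 : T'.Reachable t' (sx (ix t)) := havoid t (Or.inl rfl) _ _ p hp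
    exact h1.trans (hset j (Or.inl htj) _ (hsx j) a ha)
  have hsidei : ∀ a ∈ Sn i, T'.Reachable t a := by
    intro a ha
    obtain ⟨p, hp⟩ := hnxw t'
    have h1 : T'.Reachable (nx t') (sx (ix t')) := havoid t' (Or.inr rfl) _ _ p hp
    rw [ht] at h1
    exact h1.trans (hset i (Or.inr hti) _ (hsx i) a ha)
  refine ⟨{v | v ∉ ((bag t : Set V) ∩ (bag t' : Set V)) ∧ ∃ s, v ∈ bag s ∧ T'.Reachable t s},
    (bag t : Set V) ∩ (bag t' : Set V), ?_, ?_, ?_, i, j, ?_, ?_⟩
  · refine (Set.ncard_le_ncard Set.inter_subset_left (Finset.finite_toSet _)).trans ?_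
    rw [Set.ncard_coe_finset]
    exact hcard t
  · rw [Set.disjoint_left]
    intro x hx hx'
    exact hx.1 hx'
  · rintro x ⟨hxX, s, hxs, hts⟩ y hxy
    by_cases hy : y ∈ ((bag t : Set V) ∩ (bag t' : Set V))
    · exact Or.inr hy
    · left
      obtain ⟨c, hc1, hc2⟩ := hedge x y hxy
      refine ⟨hy, c, hc2, hts.trans ?_⟩
      refine hvert x ?_ s c hxs hc1
      by_contra hcon
      push Not at hcon
      exact hxX ⟨hcon.1, hcon.2⟩
  · intro v hv
    obtain ⟨s, hs⟩ := hcov v
    refine ⟨?_, s, hs, hsidei s ⟨v, hv, hs⟩⟩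
    intro hvX
    exact hti ⟨v, hv, hvX.2⟩
  · rw [Set.disjoint_left]
    intro v hv hv'
    rcases hv' with hv' | hv'
    · obtain ⟨_, s, hs, hts⟩ := hv'
      have h1 := hsidej s ⟨v, hv, hs⟩
      exact hbridge (hts.trans h1.symm)
    · exact htj ⟨v, hv, hv'.1⟩

end Helper39_PP
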